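import Pool.Agent.helper48.TH.Spec

/-!
# Project TH, row SUA: the expected number of bad sites for an adaptive set
-/

set_option autoImplicit false

namespace TP.TW

open DP MeasureTheory Finset

lemma SUA_box (D : Finset V) (τ : ℤ × ℤ) (R : ℕ) (w : V) :
    #(D.filter fun v => sd (v.1 + τ.1, v.2 + τ.2) w ≤ R) ≤ (2 * R + 1) ^ 2 := by
  have h : #(D.filter fun v => sd (v.1 + τ.1, v.2 + τ.2) w ≤ R) ≤
      #(Icc (w.1 - R) (w.1 + R) ×ˢ Icc (w.2 - R) (w.2 + R)) := by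
    refine card_le_card_of_injOn (fun v => (v.1 + τ.1, v.2 + τ.2)) ?_ ?_
    · intro v hv
      have h1 := (mem_filter.mp (mem_coe.mp hv)).2
      unfold sd at h1
      rw [max_le_iff] at h1
      obtain ⟨h2, h3⟩ := h1
      simp only at h2 h3
      rw [mem_coe, mem_product, mem_Icc, mem_Icc]
      refine ⟨⟨?_, ?_⟩, ?_, ?_⟩ <;> simp only <;> omega
    · intro v _ v' _ he
      simp only [Prod.mk.injEq] at he
      obtain ⟨h2, h3⟩ := he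
      refine Prod.ext ?_ ?_ <;> omega
  refine h.trans (le_of_eq ?_)
  rw [card_product, Int.card_Icc, Int.card_Icc]
  have e1 : (w.1 + (R : ℤ) + 1 - (w.1 - R)).toNat = 2 * R + 1 := by omega
  have e2 : (w.2 + (R : ℤ) + 1 - (w.2 - R)).toNat = 2 * R + 1 := by omega
  rw [e1, e2]
  ring

lemma SUA_dw (D S : Finset V) (τ : ℤ × ℤ) (R : ℕ) (p : V → ℝ) (hp : ∀ v ∈ S, 0 ≤ p v) :
    ∑ v₀ ∈ D, ∑ w ∈ S.filter (fun w => sd (v₀.1 + τ.1, v₀.2 + τ.2) w ≤ R), p w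
      ≤ (((2 * R + 1) ^ 2 : ℕ) : ℝ) * ∑ w ∈ S, p w := by
  simp_rw [sum_filter]
  rw [sum_comm, mul_sum]
  refine sum_le_sum ?_
  intro w hw
  rw [← sum_filter, sum_const, nsmul_eq_mul]
  refine mul_le_mul_of_nonneg_right ?_ (hp w hw)
  exact_mod_cast SUA_box D τ R w

lemma SUA_log (n : ℕ) (hn : 2 ≤ n) : (1 : ℝ) ≤ 2 * Real.log n ∧
    ((Nat.log 2 n + 1 : ℕ) : ℝ) ≤ 4 * Real.log n := by
  have hl2 : (1 : ℝ) / 2 < Real.log 2 := by
    have := Real.log_two_gt_d9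
    linarith
  have hn' : (2 : ℝ) ≤ n := by exact_mod_cast hn
  have h1 : Real.log 2 ≤ Real.log n := Real.log_le_log (by norm_num) hn'
  have h2 : (Nat.log 2 n : ℝ) * Real.log 2 ≤ Real.log n := by
    rw [← Real.log_pow]
    refine Real.log_le_log (by positivity) ?_
    exact_mod_cast Nat.pow_log_le_self 2 (by omega)
  have h3 : (0 : ℝ) ≤ (Nat.log 2 n : ℝ) := Nat.cast_nonneg _
  refine ⟨by linarith, ?_⟩
  push_cast
  nlinarith

lemma SUA_logt (n s : ℕ) (hn : 2 ≤ n) (hs : s ∈ range (Nat.log 2 n + 1)) :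
    Real.log (((2 ^ s : ℕ) : ℝ) + 2) ≤ 2 * Real.log n := by
  have hs' : s ≤ Nat.log 2 n := by
    have := mem_range.mp hs
    omega
  have h1 : 2 ^ s ≤ n :=
    (Nat.pow_le_pow_right (by norm_num) hs').trans (Nat.pow_log_le_self 2 (by omega))
  have h2 : 2 ^ s + 2 ≤ n ^ 2 := by nlinarith
  have h3 : (((2 ^ s : ℕ) : ℝ) + 2) ≤ (n : ℝ) ^ 2 := by exact_mod_cast h2
  have h4 : Real.log (((2 ^ s : ℕ) : ℝ) + 2) ≤ Real.log ((n : ℝ) ^ 2) :=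
    Real.log_le_log (by positivity) h3
  rwa [Real.log_pow] at h4

lemma SUA_prob : IsProbabilityMeasure DP.P1 := by
  unfold DP.P1
  infer_instance

lemma SUA_nn (F : Set (V → Bool)) : 0 ≤ Pr F := by
  unfold DP.Pr
  exact measureReal_nonneg

/-- The sum of the local weights over the translates. -/
lemma SUA_wgt (D A Ω : Finset V) (B : (V → Bool) → Finset V) (τ : ℤ × ℤ) (R t : ℕ) :
    ∑ v₀ ∈ D, wgt (A.filter fun w => sd (v₀.1 + τ.1, v₀.2 + τ.2) w ≤ R)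
      (Ω.filter fun w => sd (v₀.1 + τ.1, v₀.2 + τ.2) w ≤ R) B t
      ≤ (((2 * R + 1) ^ 2 : ℕ) : ℝ) * wgt A Ω B t := by
  have hl : 0 ≤ Real.log ((t : ℝ) + 2) := by
    refine Real.log_nonneg ?_
    have : (0 : ℝ) ≤ t := Nat.cast_nonneg _
    linarith
  unfold wgt
  rw [sum_add_distrib, ← sum_mul, mul_add]
  refine add_le_add ?_ (SUA_dw D Ω τ R _ fun v _ => SUA_nn _)
  have h1 := SUA_dw D A τ R (fun _ => (1 : ℝ)) (fun _ _ => zero_le_one)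
  simp only [sum_const, nsmul_eq_mul, mul_one] at h1
  rw [← mul_assoc]
  exact mul_le_mul_of_nonneg_right h1 hl

theorem SUA (cv : CV_stmt) (spa : SPA_stmt) : SUA_stmt := by
  have hprob := SUA_prob
  obtain ⟨C₀, hC₀, hSPA⟩ := spa
  refine ⟨4 * 401 ^ 2 + 4 * (2 * 801 ^ 2) * (162 * C₀), by positivity, ?_⟩
  intro n A Ω B hn hA hΩ hT
  obtain ⟨hT1, hT2, hT3, hT4⟩ := hT
  set D : Finset V := (univ : Finset (Fin n × Fin n)).image phi with hD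
  set I : Finset (ℕ × Bool × ℤ × ℤ) := range (Nat.log 2 n + 1) ×ˢ (univ : Finset Bool) ×ˢ
    Icc (-400 : ℤ) 400 ×ˢ Icc (-400 : ℤ) 400 with hI
  have hIc : (#I : ℝ) = ((Nat.log 2 n + 1 : ℕ) : ℝ) * (2 * 801 ^ 2) := by
    have e0 : ((400 : ℤ) + 1 - (-400)).toNat = 801 := by decide
    rw [hI, card_product, card_product, card_product, card_range, Int.card_Icc, e0, card_univ,
      Fintype.card_bool]
    push_cast
    ring
  have hSD : ∀ β, A ∪ B β ⊆ D := fun β => union_subset hA ((hT3 β).trans hΩ)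
  -- the first part of the bound
  have h1 : ∀ v₀ ∈ D, Pr {β | BAD (col β) (A ∪ B β) v₀} ≤
      ((#(A.filter fun w => sd v₀ w ≤ 200) : ℝ) +
        ∑ w ∈ Ω.filter (fun w => sd v₀ w ≤ 200), Pr {β | w ∈ B β}) +
      ∑ i ∈ I, C₀ * wgt (A.filter fun w => sd (v₀.1 + 2 ^ i.1 * i.2.2.1, v₀.2 + 2 ^ i.1 * i.2.2.2) w
          ≤ 4 * 2 ^ i.1)
        (Ω.filter fun w => sd (v₀.1 + 2 ^ i.1 * i.2.2.1, v₀.2 + 2 ^ i.1 * i.2.2.2) w
          ≤ 4 * 2 ^ i.1) B (2 ^ i.1) / (((2 ^ i.1 : ℕ) : ℝ)) ^ 2 := by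
    intro v₀ hv₀
    have hsub : {β | BAD (col β) (A ∪ B β) v₀} ⊆
        ((⋃ w ∈ A.filter (fun w => sd v₀ w ≤ 200), (Set.univ : Set (V → Bool))) ∪
          ⋃ w ∈ Ω.filter (fun w => sd v₀ w ≤ 200), {β | w ∈ B β}) ∪
        ⋃ i ∈ I, {β | SR (col β) i.2.1 (A ∪ B β)
          (v₀.1 + 2 ^ i.1 * i.2.2.1, v₀.2 + 2 ^ i.1 * i.2.2.2) (2 ^ i.1)} := by
      intro β hβ
      have hβ' : BAD (col β) (A ∪ B β) v₀ := hβ
      rcases cv n (col β) (A ∪ B β) v₀ hn (hSD β) hv₀ hβ' with ⟨w, hw, hsw⟩ | ⟨s, hs, k, p, hp, q, hq, hSR⟩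
      · left
        rcases mem_union.mp hw with hwA | hwB
        · left
          rw [Set.mem_iUnion₂]
          exact ⟨w, mem_filter.mpr ⟨hwA, hsw⟩, Set.mem_univ _⟩
        · right
          rw [Set.mem_iUnion₂]
          exact ⟨w, mem_filter.mpr ⟨hT3 β hwB, hsw⟩, hwB⟩
      · right
        rw [Set.mem_iUnion₂]
        refine ⟨(s, k, p, q), ?_, hSR⟩
        rw [hI, mem_product, mem_product, mem_product]
        exact ⟨hs, mem_univ _, hp, hq⟩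
    have hU : ∀ F G : Set (V → Bool), Pr (F ∪ G) ≤ Pr F + Pr G := by
      intro F G
      unfold DP.Pr
      exact measureReal_union_le F G
    have h6 : Pr {β | BAD (col β) (A ∪ B β) v₀} ≤
        (∑ w ∈ A.filter (fun w => sd v₀ w ≤ 200), Pr (Set.univ : Set (V → Bool)) +
          ∑ w ∈ Ω.filter (fun w => sd v₀ w ≤ 200), Pr {β | w ∈ B β}) +
        ∑ i ∈ I, Pr {β | SR (col β) i.2.1 (A ∪ B β)
          (v₀.1 + 2 ^ i.1 * i.2.2.1, v₀.2 + 2 ^ i.1 * i.2.2.2) (2 ^ i.1)} := by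
      have hm : Pr {β | BAD (col β) (A ∪ B β) v₀} ≤ Pr (((⋃ w ∈ A.filter (fun w => sd v₀ w ≤ 200), (Set.univ : Set (V → Bool))) ∪
          ⋃ w ∈ Ω.filter (fun w => sd v₀ w ≤ 200), {β | w ∈ B β}) ∪
        ⋃ i ∈ I, {β | SR (col β) i.2.1 (A ∪ B β)
          (v₀.1 + 2 ^ i.1 * i.2.2.1, v₀.2 + 2 ^ i.1 * i.2.2.2) (2 ^ i.1)}) := by
        unfold DP.Pr
        exact measureReal_mono hsub (measure_ne_top _ _)
      refine hm.trans ((hU _ _).trans (add_le_add ((hU _ _).trans (add_le_add ?_ ?_)) ?_))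
      · unfold DP.Pr
        exact measureReal_biUnion_finset_le _ _
      · unfold DP.Pr
        exact measureReal_biUnion_finset_le _ _
      · unfold DP.Pr
        exact measureReal_biUnion_finset_le I _
    have h7 : ∑ i ∈ I, Pr {β | SR (col β) i.2.1 (A ∪ B β)
          (v₀.1 + 2 ^ i.1 * i.2.2.1, v₀.2 + 2 ^ i.1 * i.2.2.2) (2 ^ i.1)} ≤
        ∑ i ∈ I, C₀ * wgt (A.filter fun w => sd (v₀.1 + 2 ^ i.1 * i.2.2.1, v₀.2 + 2 ^ i.1 * i.2.2.2) w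
          ≤ 4 * 2 ^ i.1)
        (Ω.filter fun w => sd (v₀.1 + 2 ^ i.1 * i.2.2.1, v₀.2 + 2 ^ i.1 * i.2.2.2) w
          ≤ 4 * 2 ^ i.1) B (2 ^ i.1) / (((2 ^ i.1 : ℕ) : ℝ)) ^ 2 :=
      sum_le_sum fun i _ => hSPA i.2.1 A Ω B _ (2 ^ i.1) Nat.one_le_two_pow ⟨hT1, hT2, hT3, hT4⟩
    have h8 : ∑ w ∈ A.filter (fun w => sd v₀ w ≤ 200), Pr (Set.univ : Set (V → Bool)) =
        (#(A.filter fun w => sd v₀ w ≤ 200) : ℝ) := by
      have h9 : Pr (Set.univ : Set (V → Bool)) = 1 := by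
        unfold DP.Pr
        exact probReal_univ
      rw [sum_const, h9, nsmul_eq_mul, mul_one]
    rw [h8] at h6
    linarith
  set P : ℝ := ∑ v ∈ Ω, Pr {β | v ∈ B β} with hP
  have hP0 : 0 ≤ P := sum_nonneg fun v _ => SUA_nn _
  have hA0 : (0 : ℝ) ≤ #A := Nat.cast_nonneg _
  obtain ⟨hlog1, hlog2⟩ := SUA_log n hn
  have hl0 : 0 ≤ Real.log n := by linarith
  set W : ℝ := #A * Real.log n + P with hW
  have hAl : (#A : ℝ) ≤ 2 * (#A * Real.log n) := by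
    have h := mul_le_mul_of_nonneg_left hlog1 hA0
    linarith
  have hW0 : 0 ≤ W := by positivity
  have h9 : ∑ v₀ ∈ D, ((#(A.filter fun w => sd v₀ w ≤ 200) : ℝ) +
        ∑ w ∈ Ω.filter (fun w => sd v₀ w ≤ 200), Pr {β | w ∈ B β}) ≤ 401 ^ 2 * (2 * W) := by
    have h10 := SUA_dw D A (0, 0) 200 (fun _ => (1 : ℝ)) (fun _ _ => zero_le_one)
    have h11 := SUA_dw D Ω (0, 0) 200 (fun v => Pr {β | v ∈ B β}) (fun _ _ => SUA_nn _)
    simp only [add_zero, sum_const, nsmul_eq_mul, mul_one] at h10 h11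
    rw [sum_add_distrib]
    have e1 : (((2 * 200 + 1) ^ 2 : ℕ) : ℝ) = 401 ^ 2 := by norm_num
    rw [e1] at h10 h11
    have h12 : (401 : ℝ) ^ 2 * #A + 401 ^ 2 * P ≤ 401 ^ 2 * (2 * W) := by
      rw [hW]
      nlinarith
    linarith
  have h12 : ∀ i ∈ I, ∑ v₀ ∈ D, C₀ * wgt (A.filter fun w => sd (v₀.1 + 2 ^ i.1 * i.2.2.1, v₀.2 + 2 ^ i.1 * i.2.2.2) w
          ≤ 4 * 2 ^ i.1)
        (Ω.filter fun w => sd (v₀.1 + 2 ^ i.1 * i.2.2.1, v₀.2 + 2 ^ i.1 * i.2.2.2) w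
          ≤ 4 * 2 ^ i.1) B (2 ^ i.1) / (((2 ^ i.1 : ℕ) : ℝ)) ^ 2
      ≤ 162 * C₀ * W := by
    intro i hi
    have his : i.1 ∈ range (Nat.log 2 n + 1) := by
      rw [hI, mem_product] at hi
      exact hi.1
    have h13 := SUA_wgt D A Ω B (2 ^ i.1 * i.2.2.1, 2 ^ i.1 * i.2.2.2) (4 * 2 ^ i.1) (2 ^ i.1)
    simp only at h13
    have h14 : (2 * (4 * 2 ^ i.1) + 1) ^ 2 ≤ 81 * (2 ^ i.1) ^ 2 := by
      have h15 : 1 ≤ 2 ^ i.1 := Nat.one_le_two_pow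
      nlinarith
    have h15 : (((2 * (4 * 2 ^ i.1) + 1) ^ 2 : ℕ) : ℝ) ≤ 81 * (((2 ^ i.1 : ℕ) : ℝ)) ^ 2 := by
      exact_mod_cast h14
    have hwg : wgt A Ω B (2 ^ i.1) ≤ 2 * W := by
      unfold wgt
      have h16 := SUA_logt n i.1 hn his
      have h17 : (#A : ℝ) * Real.log (((2 ^ i.1 : ℕ) : ℝ) + 2) ≤ #A * (2 * Real.log n) :=
        mul_le_mul_of_nonneg_left h16 hA0
      rw [hW]
      linarith
    have h18 : ∑ v₀ ∈ D, wgt (A.filter fun w => sd (v₀.1 + 2 ^ i.1 * i.2.2.1, v₀.2 + 2 ^ i.1 * i.2.2.2) w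
          ≤ 4 * 2 ^ i.1)
        (Ω.filter fun w => sd (v₀.1 + 2 ^ i.1 * i.2.2.1, v₀.2 + 2 ^ i.1 * i.2.2.2) w
          ≤ 4 * 2 ^ i.1) B (2 ^ i.1) ≤ 81 * (((2 ^ i.1 : ℕ) : ℝ)) ^ 2 * (2 * W) := by
      refine h13.trans ?_
      refine (mul_le_mul_of_nonneg_left hwg (Nat.cast_nonneg _)).trans ?_
      exact mul_le_mul_of_nonneg_right h15 (by positivity)
    have hpos : (0 : ℝ) < (((2 ^ i.1 : ℕ) : ℝ)) ^ 2 := by positivity
    rw [← sum_div, ← mul_sum, div_le_iff₀ hpos]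
    refine (mul_le_mul_of_nonneg_left h18 hC₀.le).trans (le_of_eq ?_)
    ring
  have h18 : ∑ v₀ ∈ D, Pr {β | BAD (col β) (A ∪ B β) v₀} ≤
      401 ^ 2 * (2 * W) + #I * (162 * C₀ * W) := by
    refine (sum_le_sum h1).trans ?_
    rw [sum_add_distrib, sum_comm]
    refine add_le_add h9 ?_
    have h19 := sum_le_card_nsmul I _ _ h12
    rwa [nsmul_eq_mul] at h19
  refine h18.trans ?_
  rw [hIc]
  have h20 : (401 : ℝ) ^ 2 * (2 * W) ≤ 4 * 401 ^ 2 * Real.log n * W := by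
    have : (401 : ℝ) ^ 2 * (2 * W) * 1 ≤ 401 ^ 2 * (2 * W) * (2 * Real.log n) :=
      mul_le_mul_of_nonneg_left hlog1 (by positivity)
    linarith
  have h21 : ((Nat.log 2 n + 1 : ℕ) : ℝ) * (2 * 801 ^ 2) * (162 * C₀ * W) ≤
      4 * (2 * 801 ^ 2) * (162 * C₀) * Real.log n * W := by
    have h22 : ((Nat.log 2 n + 1 : ℕ) : ℝ) * ((2 * 801 ^ 2) * (162 * C₀ * W)) ≤
        4 * Real.log n * ((2 * 801 ^ 2) * (162 * C₀ * W)) :=
      mul_le_mul_of_nonneg_right hlog2 (by positivity)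
    linarith
  have h23 : (4 * 401 ^ 2 + 4 * (2 * 801 ^ 2) * (162 * C₀)) * Real.log n * W =
    4 * 401 ^ 2 * Real.log n * W + 4 * (2 * 801 ^ 2) * (162 * C₀) * Real.log n * W := by ring
  rw [h23]
  exact add_le_add h20 h21

end TP.TW
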